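import Pool.Agent.MP_e446a9_co_srg.Rank1

/-!
The lattice `ker (M - n)` of a symmetric matrix `M` with `M ^ 2 = n ^ 2 + 2 J`.
-/

set_option autoImplicit false

namespace Pool.Agent.MP_e446a9_co_srg

open Matrix

section

variable {V : Type*} [Fintype V] [DecidableEq V] {M : Matrix V V ℤ} {n b : ℤ}

/-- `M` is a symmetric integer matrix with ones on the diagonal, constant row sums `n ^ 2 + 2` and
`M ^ 2 = n ^ 2 I + 2 J`. -/
structure Design (M : Matrix V V ℤ) (n : ℤ) : Prop where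
  symm : M.IsSymm
  diag : ∀ i, M i i = 1
  sq : M * M = (n ^ 2) • (1 : Matrix V V ℤ) + (2 : ℤ) • vecMulVec 1 1
  row : M *ᵥ 1 = (n ^ 2 + 2) • (1 : V → ℤ)

lemma Design.card [Nonempty V] (h : Design M n) :
    2 * (Fintype.card V : ℤ) = (n ^ 2 + 2) ^ 2 - n ^ 2 := by
  obtain ⟨i⟩ := (inferInstance : Nonempty V)
  have h1 : (M * M) *ᵥ 1 = (n ^ 2 + 2) • (n ^ 2 + 2) • (1 : V → ℤ) := by
    rw [← Matrix.mulVec_mulVec, h.row, Matrix.mulVec_smul, h.row]
  rw [h.sq, Matrix.add_mulVec, Matrix.smul_mulVec, Matrix.one_mulVec, Matrix.smul_mulVec] at h1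
  have h2 := congrFun h1 i
  have h3 : (vecMulVec (1 : V → ℤ) (1 : V → ℤ) *ᵥ 1) i = Fintype.card V := by
    simp [Matrix.mulVec, dotProduct, vecMulVec_apply]
  simp only [Pi.add_apply, Pi.smul_apply, h3, Pi.one_apply, smul_eq_mul, mul_one] at h2
  linarith

/-- the multiple `2 n b e` of the projection `e` -/
def proj (M : Matrix V V ℤ) (n b : ℤ) : Matrix V V ℤ :=
  b • (M + n • (1 : Matrix V V ℤ)) - vecMulVec 1 1

lemma Design.proj_symm (h : Design M n) : (proj M n b).IsSymm := by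
  rw [proj, Matrix.IsSymm, transpose_sub, transpose_smul, transpose_add, transpose_smul,
    transpose_one, transpose_vecMulVec, h.symm]

lemma Design.vecMul (h : Design M n) : (1 : V → ℤ) ᵥ* M = (n ^ 2 + 2) • (1 : V → ℤ) := by
  rw [← h.row, ← Matrix.vecMul_transpose, h.symm]

lemma Design.mul_proj (h : Design M n) (hb : 2 * b = n ^ 2 - n + 2) :
    (M - n • (1 : Matrix V V ℤ)) * proj M n b = 0 := by
  have h1 : M * vecMulVec 1 1 = (n ^ 2 + 2) • vecMulVec (1 : V → ℤ) 1 := by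
    rw [mul_vecMulVec, h.row, smul_vecMulVec]
  rw [proj, Matrix.mul_sub, Matrix.mul_smul, Matrix.mul_add, Matrix.sub_mul, Matrix.sub_mul,
    Matrix.sub_mul, h1, h.sq]
  simp only [Matrix.mul_smul, Matrix.smul_mul, Matrix.one_mul, Matrix.mul_one]
  have h2 : (n ^ 2 + 2 - n) = 2 * b := by rw [hb]; ring
  ext i j
  simp only [Matrix.sub_apply, Matrix.smul_apply, Matrix.add_apply, Matrix.zero_apply,
    smul_eq_mul, vecMulVec_apply, Pi.one_apply]
  linear_combination (-1 : ℤ) * h2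

lemma Design.sum_zero (h : Design M n) {ι : Type} {X : Matrix V ι ℤ}
    (hX : (M - n • (1 : Matrix V V ℤ)) * X = 0) : (1 : V → ℤ) ᵥ* X = 0 := by
  have h1 : (1 : V → ℤ) ᵥ* ((M - n • (1 : Matrix V V ℤ)) * X) = 0 := by
    rw [hX, Matrix.vecMul_zero]
  rw [← Matrix.vecMul_vecMul, Matrix.vecMul_sub, h.vecMul, Matrix.vecMul_smul, Matrix.vecMul_one,
    ← sub_smul, Matrix.smul_vecMul] at h1
  rcases smul_eq_zero.mp h1 with h2 | h2
  · exfalso
    nlinarith [sq_nonneg (2 * n - 1)]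
  · exact h2

lemma Design.proj_mul (h : Design M n) {ι : Type} {X : Matrix V ι ℤ}
    (hX : (M - n • (1 : Matrix V V ℤ)) * X = 0) : proj M n b * X = (2 * (n * b)) • X := by
  have h1 : M * X = n • X := by
    rw [Matrix.sub_mul, Matrix.smul_mul, Matrix.one_mul] at hX
    exact sub_eq_zero.mp hX
  rw [proj, Matrix.sub_mul, Matrix.smul_mul, Matrix.add_mul, Matrix.smul_mul, Matrix.one_mul,
    vecMulVec_mul, h.sum_zero hX, h1, ← add_smul, smul_smul]
  have h2 : vecMulVec (1 : V → ℤ) (0 : ι → ℤ) = 0 := by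
    ext i j
    simp [vecMulVec_apply]
  rw [h2, sub_zero]
  congr 1
  ring

end

end Pool.Agent.MP_e446a9_co_srg
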