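import Mathlib

/-!
The diagonal of a symmetric matrix over the field with two elements lies in the column space.
-/

set_option autoImplicit false

namespace Pool.Agent.MP_e446a9_co_srg

open Matrix

lemma sum_symm_two {V : Type*} [Fintype V] [DecidableEq V] (a : V → V → ZMod 2)
    (h : ∀ i j, a i j = a j i) : ∑ i, ∑ j, a i j = ∑ i, a i i := by
  have h1 : ∑ i, ∑ j, a i j = ∑ p : V × V, a p.1 p.2 := by
    rw [Fintype.sum_prod_type]
  have h2 : ∑ p ∈ (Finset.univ : Finset (V × V)).filter (fun p => ¬ p.1 = p.2), a p.1 p.2 = 0 := by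
    refine Finset.sum_involution (fun p _ => (p.2, p.1)) ?_ ?_ ?_ ?_
    · intro p _
      rw [h p.2 p.1]
      exact CharTwo.add_self_eq_zero _
    · intro p hp _ he
      rw [Finset.mem_filter] at hp
      exact hp.2 (congrArg Prod.fst he).symm
    · intro p hp
      rw [Finset.mem_filter] at hp ⊢
      exact ⟨Finset.mem_univ _, fun he => hp.2 he.symm⟩
    · intro p _
      rfl
  have h3 : ∑ p ∈ (Finset.univ : Finset (V × V)).filter (fun p => p.1 = p.2), a p.1 p.2 =
      ∑ i, a i i := by
    symm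
    refine Finset.sum_bij (fun i _ => (i, i)) ?_ ?_ ?_ ?_
    · intro i _
      simp
    · intro i _ j _ hij
      exact congrArg Prod.fst hij
    · rintro ⟨i, j⟩ hp
      rw [Finset.mem_filter] at hp
      exact ⟨i, Finset.mem_univ _, Prod.ext rfl hp.2⟩
    · intro i _
      rfl
  rw [h1, ← Finset.sum_filter_add_sum_filter_not _ (fun p : V × V => p.1 = p.2), h2, h3, add_zero]

/-- A symmetric integer matrix with odd diagonal has a vector with odd entries in its image. -/
lemma exists_odd_image {V : Type*} [Fintype V] [DecidableEq V] {E : Matrix V V ℤ}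
    (hE : E.IsSymm) (hd : ∀ i, Odd (E i i)) : ∃ u : V → ℤ, ∀ i, Odd ((E *ᵥ u) i) := by
  obtain ⟨F, hF⟩ : ∃ F : Matrix V V (ZMod 2), F = E.map (Int.castRingHom (ZMod 2)) := ⟨_, rfl⟩
  have hFs : F.IsSymm := by
    rw [hF, Matrix.IsSymm, ← transpose_map, hE]
  have hFd : ∀ i, F i i = 1 := by
    intro i
    rw [hF, Matrix.map_apply]
    obtain ⟨k, hk⟩ := hd i
    rw [hk]
    simp [show (2 : ZMod 2) = 0 from rfl]
  have hmem : (fun _ => 1 : V → ZMod 2) ∈ LinearMap.range F.mulVecLin := by
    by_contra hn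
    obtain ⟨f, hf1, hf2⟩ := Submodule.exists_dual_map_eq_bot_of_notMem hn inferInstance
    obtain ⟨z, hz⟩ : ∃ z : V → ZMod 2, z = fun i => f (Pi.single i 1) := ⟨_, rfl⟩
    have hfz : ∀ x : V → ZMod 2, f x = ∑ i, x i * z i := by
      intro x
      conv_lhs => rw [← Finset.univ_sum_single x]
      rw [map_sum]
      refine Finset.sum_congr rfl fun i _ => ?_
      have : Pi.single i (x i) = x i • (Pi.single i 1 : V → ZMod 2) := by
        rw [← Pi.single_smul]
        simp
      rw [this, map_smul, hz, smul_eq_mul]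
    have hf0 : ∀ x, f (F *ᵥ x) = 0 := by
      intro x
      have : f (F.mulVecLin x) ∈ (LinearMap.range F.mulVecLin).map f :=
        Submodule.mem_map_of_mem (LinearMap.mem_range_self _ x)
      rw [hf2, Submodule.mem_bot] at this
      exact this
    apply hf1
    rw [hfz]
    have h1 := hf0 z
    rw [hfz] at h1
    have h2 : ∑ i, ∑ j, z i * F i j * z j = ∑ i, z i * F i i * z i :=
      sum_symm_two (fun i j => z i * F i j * z j) (fun i j => by
        have := hFs.apply i j
        rw [← this]
        ring)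
    have h3 : ∑ i, (F *ᵥ z) i * z i = ∑ i, ∑ j, z i * F i j * z j := by
      refine Finset.sum_congr rfl fun i _ => ?_
      rw [Matrix.mulVec, dotProduct, Finset.sum_mul]
      refine Finset.sum_congr rfl fun j _ => ?_
      ring
    rw [h3, h2] at h1
    rw [← h1]
    refine Finset.sum_congr rfl fun i _ => ?_
    rw [hFd]
    have : ∀ t : ZMod 2, 1 * t = t * 1 * t := by decide
    exact this _
  obtain ⟨x, hx⟩ := hmem
  refine ⟨fun i => ((x i).val : ℤ), fun i => ?_⟩
  have h1 := congrFun hx i
  rw [Matrix.mulVecLin_apply] at h1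
  have h2 : (((E *ᵥ fun i => ((x i).val : ℤ)) i : ℤ) : ZMod 2) = 1 := by
    rw [← h1, Matrix.mulVec, Matrix.mulVec, dotProduct, dotProduct]
    push_cast
    refine Finset.sum_congr rfl fun j _ => ?_
    rw [hF, Matrix.map_apply]
    simp
  rw [Int.odd_iff]
  have h3 : (((E *ᵥ fun i => ((x i).val : ℤ)) i : ℤ) : ZMod 2) = ((1 : ℤ) : ZMod 2) := by
    rw [h2]
    simp
  rw [ZMod.intCast_eq_intCast_iff] at h3
  exact h3

end Pool.Agent.MP_e446a9_co_srg
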