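import Mathlib

/-!
Determinants of even symmetric integer matrices `K` such that `2 u K⁻¹` is again an even symmetric
integer matrix, `u` odd.
-/

set_option autoImplicit false

namespace Pool.Agent.MP_e446a9_co_srg

open Matrix

universe u

/-- `ε` is the odd part of the integer `d`. -/
def OddPart (d ε : ℤ) : Prop := Odd ε ∧ ∃ i : ℕ, d = 2 ^ i * ε

lemma OddPart.ne_zero {d ε : ℤ} (h : OddPart d ε) : d ≠ 0 := by
  obtain ⟨h1, i, rfl⟩ := h
  have : ε ≠ 0 := by
    rintro rfl
    exact absurd h1 (by decide)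
  positivity

lemma OddPart.mul {d ε d' ε' : ℤ} (h : OddPart d ε) (h' : OddPart d' ε') :
    OddPart (d * d') (ε * ε') := by
  obtain ⟨h1, i, rfl⟩ := h
  obtain ⟨h2, j, rfl⟩ := h'
  exact ⟨h1.mul h2, i + j, by ring⟩

lemma OddPart.unique {d ε ε' : ℤ} (h : OddPart d ε) (h' : OddPart d ε') : ε = ε' := by
  obtain ⟨h1, i, rfl⟩ := h
  obtain ⟨h2, j, h3⟩ := h'
  have key : ∀ (i j : ℕ) (a b : ℤ), Odd a → Odd b → 2 ^ i * a = 2 ^ j * b → i ≤ j → a = b := by
    intro i j a b ha hb hab hij
    obtain ⟨k, rfl⟩ := Nat.exists_eq_add_of_le hij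
    rw [pow_add, mul_assoc] at hab
    have h4 : a = 2 ^ k * b := mul_left_cancel₀ (by positivity) hab
    rcases Nat.eq_zero_or_pos k with h5 | h5
    · rw [h5] at h4
      simpa using h4
    · exfalso
      obtain ⟨k, rfl⟩ : ∃ k', k = k' + 1 := ⟨k - 1, by omega⟩
      rw [h4, pow_succ] at ha
      have : ¬ Odd (2 ^ k * 2 * b) := by
        rw [Int.not_odd_iff_even]
        exact ⟨2 ^ k * b, by ring⟩
      exact this ha
  rcases le_total i j with h4 | h4
  · exact key i j ε ε' h1 h2 h3 h4
  · exact (key j i ε' ε h2 h1 h3.symm h4).symm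

lemma exists_oddPart {d : ℤ} (h : d ≠ 0) : ∃ ε, OddPart d ε := by
  obtain ⟨k, m, hm, hk⟩ := Nat.exists_eq_two_pow_mul_odd (Int.natAbs_ne_zero.mpr h)
  rcases Int.natAbs_eq d with h1 | h1
  · refine ⟨m, by exact_mod_cast hm, k, ?_⟩
    rw [h1, hk]
    push_cast
    ring
  · refine ⟨-m, ?_, k, ?_⟩
    · have : Odd (m : ℤ) := by exact_mod_cast hm
      exact this.neg
    · rw [h1, hk]
      push_cast
      ring

lemma oddPart_self {d : ℤ} (h : Odd d) : OddPart d d := ⟨h, 0, by ring⟩

/-- even symmetric integer matrices -/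
def EvenSymm {ι : Type u} (K : Matrix ι ι ℤ) : Prop := K.IsSymm ∧ ∀ i, Even (K i i)

lemma EvenSymm.submatrix {ι κ : Type u} {K : Matrix ι ι ℤ} (h : EvenSymm K) (e : κ → ι) :
    EvenSymm (K.submatrix e e) :=
  ⟨h.1.submatrix e, fun i => h.2 (e i)⟩

lemma odd_sq_mod {a : ℤ} (h : Odd a) : a ^ 2 % 8 = 1 := Int.sq_mod_four_eq_one_of_odd h |> fun _ => by
  obtain ⟨k, rfl⟩ := h
  have h1 : (2 * k + 1) ^ 2 = 4 * (k * (k + 1)) + 1 := by ring
  obtain ⟨r, hr⟩ := Int.even_mul_succ_self k
  rw [h1, hr]
  omega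

/-- One step of the elimination. -/
lemma elim_step {κ : Type u} [Fintype κ] [DecidableEq κ] {a h c : ℤ}
    {B : Matrix (Fin 2) κ ℤ} {D : Matrix κ κ ℤ} {A' : Matrix (Fin 2) (Fin 2) ℤ}
    {B' : Matrix (Fin 2) κ ℤ} {C' : Matrix κ (Fin 2) ℤ} {D' : Matrix κ κ ℤ} {x : ℤ}
    (ha : Even a) (hc : Even c) (hD : EvenSymm D)
    (hK : fromBlocks !![a, h; h, c] B Bᵀ D * fromBlocks A' B' C' D' = x • 1) :
    ∃ S : Matrix κ κ ℤ, EvenSymm S ∧ S * D' = (x * (a * c - h * h)) • 1 ∧
      (a * c - h * h) ^ Fintype.card κ * (fromBlocks !![a, h; h, c] B Bᵀ D).det =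
        (a * c - h * h) * S.det := by
  obtain ⟨δ, hδ⟩ : ∃ δ, δ = a * c - h * h := ⟨_, rfl⟩
  have hadj : !![c, -h; -h, a] * !![a, h; h, c] = δ • (1 : Matrix (Fin 2) (Fin 2) ℤ) := by
    rw [hδ]
    ext i j
    fin_cases i <;> fin_cases j <;> simp [Matrix.mul_apply, Fin.sum_univ_two] <;> ring
  rw [fromBlocks_multiply] at hK
  have h1 : x • (1 : Matrix (Fin 2 ⊕ κ) (Fin 2 ⊕ κ) ℤ) =
      fromBlocks (x • (1 : Matrix (Fin 2) (Fin 2) ℤ)) 0 0 (x • (1 : Matrix κ κ ℤ)) := by
    rw [← fromBlocks_one, fromBlocks_smul]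
    simp
  rw [h1, fromBlocks_inj] at hK
  obtain ⟨-, hK2, -, hK4⟩ := hK
  refine ⟨δ • D - Bᵀ * !![c, -h; -h, a] * B, ⟨?_, ?_⟩, ?_, ?_⟩
  · have h2 : (!![c, -h; -h, a] : Matrix (Fin 2) (Fin 2) ℤ)ᵀ = !![c, -h; -h, a] := by
      ext i j
      fin_cases i <;> fin_cases j <;> simp
    rw [Matrix.IsSymm, transpose_sub, transpose_smul, hD.1, transpose_mul, transpose_mul,
      transpose_transpose, h2, Matrix.mul_assoc]
  · intro i
    rw [Matrix.sub_apply, Matrix.smul_apply]
    have h3 : (Bᵀ * !![c, -h; -h, a] * B) i i =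
        c * (B 0 i) ^ 2 + a * (B 1 i) ^ 2 - 2 * (h * B 0 i * B 1 i) := by
      simp [Matrix.mul_apply, Fin.sum_univ_two]
      ring
    rw [h3]
    exact ((hD.2 i).mul_left δ).sub (((hc.mul_right _).add (ha.mul_right _)).sub
      (even_two_mul _))
  · rw [Matrix.sub_mul, Matrix.smul_mul]
    have h4 : !![c, -h; -h, a] * B * D' = -(δ • B') := by
      have h5 : !![c, -h; -h, a] * (!![a, h; h, c] * B' + B * D') = 0 := by rw [hK2, Matrix.mul_zero]
      rw [Matrix.mul_add, ← Matrix.mul_assoc, ← Matrix.mul_assoc, hadj, Matrix.smul_mul,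
        Matrix.one_mul] at h5
      exact eq_neg_of_add_eq_zero_right h5
    rw [Matrix.mul_assoc, Matrix.mul_assoc, ← Matrix.mul_assoc _ B D', h4, Matrix.mul_neg,
      Matrix.mul_smul, sub_neg_eq_add, ← smul_add, add_comm, hK4, smul_smul, hδ, mul_comm]
  · have h6 : fromBlocks 1 0 (-(Bᵀ * !![c, -h; -h, a])) (δ • (1 : Matrix κ κ ℤ)) *
        fromBlocks !![a, h; h, c] B Bᵀ D =
          fromBlocks !![a, h; h, c] B 0 (δ • D - Bᵀ * !![c, -h; -h, a] * B) := by
      rw [fromBlocks_multiply]
      congr 1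
      · simp
      · simp
      · rw [Matrix.neg_mul, Matrix.mul_assoc, hadj, Matrix.mul_smul, Matrix.mul_one,
          Matrix.smul_mul, Matrix.one_mul, neg_add_cancel]
      · rw [Matrix.neg_mul, Matrix.smul_mul, Matrix.one_mul]
        abel
    have h7 := congrArg Matrix.det h6
    rw [det_mul, det_fromBlocks_zero₁₂, det_fromBlocks_zero₂₁, det_one, one_mul, det_smul, det_one,
      mul_one, det_fin_two_of] at h7
    rw [← hδ] at h7 ⊢
    exact h7

lemma evenSymm_row {ι : Type u} {K : Matrix ι ι ℤ} (hK : EvenSymm K) {i j : ι}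
    (h : Odd (K i j)) : i ≠ j := by
  rintro rfl
  exact (Int.not_even_iff_odd.mpr h) (hK.2 i)

/-- An odd entry allows an elimination step. -/
lemma elim_exists {ι : Type u} [Fintype ι] [DecidableEq ι] {K K' : Matrix ι ι ℤ} {x : ℤ}
    (hK : EvenSymm K) (hK' : EvenSymm K') (h : K * K' = x • 1) {i j : ι} (hij : Odd (K i j)) :
    ∃ (κ : Type u) (_ : Fintype κ) (_ : DecidableEq κ) (S S' : Matrix κ κ ℤ) (δ : ℤ),
      Fintype.card ι = Fintype.card κ + 2 ∧ δ % 4 = 3 ∧ EvenSymm S ∧ EvenSymm S' ∧
      S * S' = (x * δ) • 1 ∧ δ ^ Fintype.card κ * K.det = δ * S.det := by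
  have hne : i ≠ j := evenSymm_row hK hij
  let κ : Type u := {a : ι // a ≠ i ∧ a ≠ j}
  let e : Fin 2 ⊕ κ ≃ ι :=
    { toFun := Sum.elim ![i, j] Subtype.val
      invFun := fun a => if h1 : a = i then Sum.inl 0 else if h2 : a = j then Sum.inl 1 else
        Sum.inr ⟨a, h1, h2⟩
      left_inv := by
        rintro (a | a)
        · fin_cases a
          · simp
          · simp [hne.symm]
        · simp [a.2.1, a.2.2]
      right_inv := by
        intro a
        by_cases h1 : a = i
        · simp [h1]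
        · by_cases h2 : a = j
          · simp [h2, hne.symm]
          · simp [h1, h2] }
  have hcard : Fintype.card ι = Fintype.card κ + 2 := by
    rw [← Fintype.card_congr e, Fintype.card_sum, Fintype.card_fin, add_comm]
  obtain ⟨L, hL⟩ : ∃ L, L = K.submatrix e e := ⟨_, rfl⟩
  obtain ⟨L', hL'⟩ : ∃ L', L' = K'.submatrix e e := ⟨_, rfl⟩
  have hLs : EvenSymm L.toBlocks₂₂ := by
    rw [hL]
    exact ⟨by
      ext a b
      simp only [transpose_apply, toBlocks₂₂, submatrix_apply, of_apply]
      exact hK.1.apply _ _, fun a => hK.2 _⟩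
  have hLs' : EvenSymm L'.toBlocks₂₂ := by
    rw [hL']
    exact ⟨by
      ext a b
      simp only [transpose_apply, toBlocks₂₂, submatrix_apply, of_apply]
      exact hK'.1.apply _ _, fun a => hK'.2 _⟩
  have h11 : L.toBlocks₁₁ = !![K i i, K i j; K i j, K j j] := by
    rw [hL]
    ext a b
    fin_cases a <;> fin_cases b
    · rfl
    · rfl
    · exact hK.1.apply _ _
    · rfl
  have h21 : L.toBlocks₂₁ = (L.toBlocks₁₂)ᵀ := by
    rw [hL]
    ext a b
    simp only [transpose_apply, toBlocks₂₁, toBlocks₁₂, submatrix_apply, of_apply]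
    exact hK.1.apply _ _
  have hLL : L * L' = x • 1 := by
    rw [hL, hL', submatrix_mul_equiv, h]
    ext a b
    simp only [submatrix_apply, Matrix.smul_apply, Matrix.one_apply, e.injective.eq_iff]
  rw [← fromBlocks_toBlocks L, ← fromBlocks_toBlocks L', h11, h21] at hLL
  obtain ⟨S, hS, hSS, hdet⟩ := elim_step (hK.2 i) (hK.2 j) hLs hLL
  rw [← h11, ← h21, fromBlocks_toBlocks L, hL, det_submatrix_equiv_self] at hdet
  refine ⟨κ, inferInstance, inferInstance, S, L'.toBlocks₂₂, K i i * K j j - K i j * K i j,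
    hcard, ?_, hS, hLs', hSS, hdet⟩
  obtain ⟨p, hp⟩ := hK.2 i
  obtain ⟨q, hq⟩ := hK.2 j
  have h1 := odd_sq_mod hij
  have h2 : K i i * K j j - K i j * K i j = 4 * (p * q) - K i j ^ 2 := by rw [hp, hq]; ring
  omega

lemma odd_pow_mod {a : ℤ} (h : Odd a) (m : ℕ) : a ^ (2 * m) % 4 = 1 := by
  have h1 := odd_sq_mod (h.pow (n := m))
  rw [← pow_mul, mul_comm] at h1
  omega

/-- **The main lemma.** Let `K`, `K'` be even symmetric integer matrices with `K K' = x I`, where
`x = 2 mod 4`. Then the size of `K` is an even number `2 m`, and the odd part of its determinant is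
congruent to `(-1) ^ m` modulo 4. -/
theorem oddPart_det (N : ℕ) : ∀ (ι : Type u) [Fintype ι] [DecidableEq ι] (K K' : Matrix ι ι ℤ)
    (x : ℤ), Fintype.card ι = N → EvenSymm K → EvenSymm K' → x % 4 = 2 → K * K' = x • 1 →
    ∃ m, N = 2 * m ∧ ∀ ε, OddPart K.det ε → (4 : ℤ) ∣ ε - (-1) ^ m := by
  induction N using Nat.strong_induction_on with
  | _ N ih =>
    intro ι _ _ K K' x hN hK hK' hx h
    have hx0 : x ≠ 0 := by
      rintro rfl
      norm_num at hx
    have hdd : K.det * K'.det = x ^ N := by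
      rw [← det_mul, h, det_smul, det_one, mul_one, hN]
    have h' : K' * K = x • 1 := by
      have := congrArg Matrix.transpose h
      rw [transpose_mul, hK.1, hK'.1, transpose_smul, transpose_one] at this
      exact this
    -- the case of an odd entry of `K`
    have key : ∀ (K K' : Matrix ι ι ℤ), EvenSymm K → EvenSymm K' → K * K' = x • 1 →
        ∀ i j, Odd (K i j) → ∃ m, N = 2 * m ∧ ∀ ε, OddPart K.det ε →
          (4 : ℤ) ∣ ε - (-1) ^ m := by
      intro K K' hK hK' h i j hij
      obtain ⟨κ, _, _, S, S', δ, hcard, hδ, hS, hS', hSS, hdet⟩ := elim_exists hK hK' h hij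
      obtain ⟨m, hm, hε⟩ := ih (Fintype.card κ) (by omega) κ S S' (x * δ) rfl hS hS'
        (by rw [Int.mul_emod, hx, hδ]; rfl) hSS
      refine ⟨m + 1, by omega, fun ε hε' => ?_⟩
      have hS0 : S.det ≠ 0 := by
        intro h0
        have h1 : S.det * S'.det = (x * δ) ^ Fintype.card κ := by
          rw [← det_mul, hSS, det_smul, det_one, mul_one]
        rw [h0, zero_mul] at h1
        have h2 : x * δ ≠ 0 := by
          refine mul_ne_zero hx0 ?_
          rintro rfl
          norm_num at hδ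
        exact (pow_ne_zero _ h2) h1.symm
      obtain ⟨ε₂, hε₂⟩ := exists_oddPart hS0
      have hδo : Odd δ := by
        rw [Int.odd_iff]
        omega
      have h1 := ((oddPart_self (hδo.pow (n := Fintype.card κ))).mul hε')
      rw [hdet] at h1
      have h2 := h1.unique ((oddPart_self hδo).mul hε₂)
      have h3 := hε ε₂ hε₂
      have h4 : δ ^ Fintype.card κ % 4 = 1 := by
        rw [hm]
        exact odd_pow_mod hδo m
      have h6 : (δ ^ Fintype.card κ * ε) % 4 = ε % 4 := by
        rw [Int.mul_emod, h4, one_mul, Int.emod_emod_of_dvd _ (dvd_refl 4)]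
      have h7 : (δ * ε₂) % 4 = (3 * ε₂) % 4 := by
        rw [Int.mul_emod, hδ, Int.mul_emod 3 ε₂]
        rfl
      rw [h2, h7] at h6
      rw [pow_succ]
      omega
    by_cases h1 : ∃ i j, Odd (K i j)
    · obtain ⟨i, j, hij⟩ := h1
      exact key K K' hK hK' h i j hij
    · push Not at h1
      by_cases h2 : ∃ i j, Odd (K' i j)
      · obtain ⟨i, j, hij⟩ := h2
        obtain ⟨m, hm, hε⟩ := key K' K hK' hK h' i j hij
        refine ⟨m, hm, fun ε hε' => ?_⟩
        have h0 : K'.det ≠ 0 := by
          intro h0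
          rw [h0, mul_zero] at hdd
          exact (pow_ne_zero _ hx0) hdd.symm
        obtain ⟨ε', h3⟩ := exists_oddPart h0
        have h4 := hε ε' h3
        have h5 := hε'.mul h3
        obtain ⟨y, hy⟩ : ∃ y, x = 2 * y := ⟨x / 2, by omega⟩
        have hyo : Odd y := by
          rw [Int.odd_iff]
          omega
        have h6 : OddPart (x ^ N) (y ^ N) := ⟨hyo.pow, N, by rw [hy, mul_pow]⟩
        rw [hdd] at h5
        have h7 := h5.unique h6
        have h8 : y ^ N % 4 = 1 := by
          rw [hm]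
          exact odd_pow_mod hyo m
        rw [← h7] at h8
        have h9 : ε' % 2 = 1 := Int.odd_iff.mp h3.1
        have h10 : ε % 2 = 1 := Int.odd_iff.mp hε'.1
        have h11 : ε % 4 = ε' % 4 := by
          have a1 : ε' % 4 = 1 ∨ ε' % 4 = 3 := by omega
          have a2 : ε % 4 = 1 ∨ ε % 4 = 3 := by omega
          rw [Int.mul_emod] at h8
          rcases a1 with a1 | a1 <;> rcases a2 with a2 | a2 <;> rw [a1, a2] at h8 ⊢ <;>
            norm_num at h8
        omega
      · push Not at h2
        -- all entries are even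
        refine ⟨0, ?_, ?_⟩
        · by_contra hN0
          have : Nonempty ι := by
            rw [← Fintype.card_pos_iff]
            omega
          obtain ⟨i⟩ := this
          have h3 : (K * K') i i = x := by
            rw [h]
            simp
          rw [Matrix.mul_apply] at h3
          have h4 : (4 : ℤ) ∣ ∑ j, K i j * K' j i := by
            refine Finset.dvd_sum fun j _ => ?_
            have h5 := even_iff_two_dvd.mp (Int.not_odd_iff_even.mp (h1 i j))
            have h6 := even_iff_two_dvd.mp (Int.not_odd_iff_even.mp (h2 j i))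
            have h7 := mul_dvd_mul h5 h6
            norm_num at h7
            exact h7
          rw [h3] at h4
          omega
        · intro ε hε
          have hN0 : N = 0 := by
            by_contra hN0
            have : Nonempty ι := by
              rw [← Fintype.card_pos_iff]
              omega
            obtain ⟨i⟩ := this
            have h3 : (K * K') i i = x := by
              rw [h]
              simp
            rw [Matrix.mul_apply] at h3
            have h4 : (4 : ℤ) ∣ ∑ j, K i j * K' j i := by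
              refine Finset.dvd_sum fun j _ => ?_
              have h5 := even_iff_two_dvd.mp (Int.not_odd_iff_even.mp (h1 i j))
              have h6 := even_iff_two_dvd.mp (Int.not_odd_iff_even.mp (h2 j i))
              have h7 := mul_dvd_mul h5 h6
              norm_num at h7
              exact h7
            rw [h3] at h4
            omega
          have : IsEmpty ι := by
            rw [← Fintype.card_eq_zero_iff]
            omega
          rw [det_isEmpty] at hε
          have h3 := hε.unique (oddPart_self (by decide : Odd (1 : ℤ)))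
          rw [h3]
          norm_num

end Pool.Agent.MP_e446a9_co_srg
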