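import Pool.Agent.MP_e446a9_co_srg.TwoAdic

/-!
Strongly regular graphs with `λ = 0`, `μ = 2` and degree `n ^ 2 + 1`, `n = 5 mod 8`.
-/

set_option autoImplicit false
set_option linter.unusedSectionVars false

namespace Pool.Agent.MP_e446a9_co_srg

open Matrix

section

variable {V : Type*} [Fintype V] [DecidableEq V] {M : Matrix V V ℤ} {n b : ℤ} {f : ℕ}
  {X : Matrix V (Fin f) ℤ} {Z : Matrix (Fin f) V ℤ}

lemma gram_det_nonneg (X : Matrix V (Fin f) ℤ) : 0 ≤ (Xᵀ * X).det := by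
  obtain ⟨Y, hY⟩ : ∃ Y : Matrix V (Fin f) ℝ, Y = X.map (Int.castRingHom ℝ) := ⟨_, rfl⟩
  have h1 := (Matrix.posSemidef_conjTranspose_mul_self Y).det_nonneg
  have h2 : Yᴴ * Y = (Xᵀ * X).map (Int.castRingHom ℝ) := by
    rw [Matrix.map_mul, hY]
    congr 1
  have h3 : (Yᴴ * Y).det = ((Xᵀ * X).det : ℤ) := by
    rw [h2, ← RingHom.mapMatrix_apply, ← RingHom.map_det]
    rfl
  rw [h3] at h1
  exact_mod_cast h1

lemma KerBasis.det_pos (k : KerBasis M n b f X Z) (h : Design M n) (hn : n ≠ 0) (hb : b ≠ 0) :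
    0 < (Xᵀ * X).det := by
  refine lt_of_le_of_ne (gram_det_nonneg X) fun h0 => ?_
  have h1 := congrArg Matrix.det (k.mul_dual h)
  rw [det_mul, det_smul, det_one, mul_one, Fintype.card_fin, ← h0, zero_mul] at h1
  exact (pow_ne_zero f (mul_ne_zero two_ne_zero (mul_ne_zero hn hb))) h1.symm

/-- an odd natural number whose prime factors are all `1` modulo `4` is `1` modulo `4` -/
lemma mod_four_eq_one : ∀ m : ℕ, m ≠ 0 → (∀ p : ℕ, p.Prime → p ∣ m → p % 4 = 1) → m % 4 = 1 := by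
  intro m
  induction m using Nat.recOnMul with
  | zero => intro h; exact absurd rfl h
  | one => intro _ _; rfl
  | prime p hp => intro _ h; exact h p hp dvd_rfl
  | mul a b ha hb =>
    intro h0 h
    rw [Nat.mul_mod, ha (by rintro rfl; simp at h0) fun p hp hpa => h p hp (hpa.mul_right _),
      hb (by rintro rfl; simp at h0) fun p hp hpb => h p hp (hpb.mul_left _)]

/-- **The main theorem** for matrices. -/
theorem Design.exists_prime [Nonempty V] (h : Design M n) (hn : n % 8 = 5) :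
    ∃ p : ℕ, p.Prime ∧ p % 4 = 3 ∧ (p : ℤ) ∣ n := by
  obtain ⟨t, ht⟩ : ∃ t, n = 8 * t + 5 := ⟨n / 8, by omega⟩
  obtain ⟨b, hb⟩ : ∃ b, b = 32 * t ^ 2 + 36 * t + 11 := ⟨_, rfl⟩
  have hb2 : 2 * b = n ^ 2 - n + 2 := by rw [hb, ht]; ring
  have hb4 : b % 4 = 3 := by
    have : b = 4 * (8 * t ^ 2 + 9 * t + 2) + 3 := by rw [hb]; ring
    omega
  have hb0 : 0 < b := by nlinarith [sq_nonneg (2 * n - 1)]
  have hn0 : n ≠ 0 := by omega
  obtain ⟨f, X, Z, k⟩ := h.exists_kerBasis hb2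
  have hcard := h.card
  have hv : (Fintype.card V : ℤ) = b * (8 * (8 * t ^ 2 + 11 * t + 4)) := by
    have : 2 * (Fintype.card V : ℤ) = 2 * (b * (8 * (8 * t ^ 2 + 11 * t + 4))) := by
      rw [hcard, hb, ht]
      ring
    linarith
  have hv8 : (Fintype.card V : ℤ) % 8 = 0 := by
    have : (Fintype.card V : ℤ) = 8 * (b * (8 * t ^ 2 + 11 * t + 4)) := by rw [hv]; ring
    omega
  -- the rank
  have hf : (f : ℤ) = 4 * ((8 * t ^ 2 + 11 * t + 4) * (32 * t ^ 2 + 40 * t + 13)) := by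
    have h1 := k.rank h
    have h2 : (2 * (n * b)) * (f : ℤ) =
        (2 * (n * b)) * (4 * ((8 * t ^ 2 + 11 * t + 4) * (32 * t ^ 2 + 40 * t + 13))) := by
      rw [← h1, hv, hb, ht]
      ring
    exact mul_left_cancel₀ (mul_ne_zero two_ne_zero (mul_ne_zero hn0 hb0.ne')) h2
  obtain ⟨m, hm, hε⟩ := k.oddPart h (by omega) (by omega) (by omega)
  have hm2 : Even m := by
    obtain ⟨c, hc⟩ : ∃ c : ℤ, c = (8 * t ^ 2 + 11 * t + 4) * (32 * t ^ 2 + 40 * t + 13) := ⟨_, rfl⟩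
    rw [← hc] at hf
    rw [Nat.even_iff]
    omega
  rw [hm2.neg_one_pow] at hε
  -- the determinant
  have hD := k.det_pos h hn0 hb0.ne'
  obtain ⟨D, hDD⟩ := k.dvd_det h
  have hdvd := k.det_dvd h hb0.ne'
  rw [hDD] at hdvd hD
  have hD0 : 0 < D := pos_of_mul_pos_right hD hb0.le
  have hdvd' : D ∣ (2 * n) ^ f := (mul_dvd_mul_iff_left hb0.ne').mp hdvd
  obtain ⟨ε, hε1, i, hε2⟩ := exists_oddPart hD0.ne'
  have hε0 : 0 < ε := by
    rw [hε2] at hD0
    exact pos_of_mul_pos_right hD0 (by positivity)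
  have hbo : Odd b := by
    rw [Int.odd_iff]
    omega
  have h1 := hε (b * ε) (by
    rw [hDD]
    exact (oddPart_self hbo).mul ⟨hε1, i, hε2⟩)
  have h2 : ε % 4 = 3 := by
    have h3 : (1 + (Fintype.card V : ℤ) / 2) % 4 = 1 := by omega
    have h4 := Int.emod_eq_zero_of_dvd h1
    have h5 : ε % 2 = 1 := Int.odd_iff.mp hε1
    rw [Int.sub_emod, Int.mul_emod, h3, Int.mul_emod b, hb4] at h4
    have h6 : ε % 4 = 1 ∨ ε % 4 = 3 := by omega
    rcases h6 with h6 | h6
    · rw [h6] at h4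
      norm_num at h4
    · exact h6
  -- the prime factor
  obtain ⟨e, he⟩ : ∃ e : ℕ, (e : ℤ) = ε := ⟨ε.toNat, Int.toNat_of_nonneg hε0.le⟩
  by_contra hcon
  push Not at hcon
  have h3 : e % 4 = 1 := by
    refine mod_four_eq_one e (by omega) fun p hp hpe => ?_
    have h4 : (p : ℤ) ∣ (2 * n) ^ f := by
      refine dvd_trans ?_ hdvd'
      rw [hε2, ← he]
      exact Dvd.dvd.mul_left (Int.natCast_dvd_natCast.mpr hpe) _
    have h5 : (p : ℤ) ∣ 2 * n := (Nat.prime_iff_prime_int.mp hp).dvd_of_dvd_pow h4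
    have h6 : p ≠ 2 := by
      rintro rfl
      have h7 : (2 : ℤ) ∣ ε := by
        rw [← he]
        exact_mod_cast hpe
      omega
    have h7 : p % 2 = 1 := hp.eq_two_or_odd.resolve_left h6
    have h8 : (p : ℤ) ∣ n := by
      rcases (Nat.prime_iff_prime_int.mp hp).dvd_or_dvd h5 with h8 | h8
      · exfalso
        have h9 : p ∣ 2 := by exact_mod_cast h8
        exact h6 ((Nat.prime_dvd_prime_iff_eq hp Nat.prime_two).mp h9)
      · exact h8
    have h9 : p % 4 ≠ 3 := fun h10 => hcon p hp h10 h8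
    omega
  omega

end

/-- A strongly regular graph with `λ = 0`, `μ = 2` and degree `n ^ 2 + 1` gives such a matrix. -/
lemma design_of_srg {V : Type*} [Fintype V] [DecidableEq V] (G : SimpleGraph V)
    [DecidableRel G.Adj] {v n : ℕ} (h : G.IsSRGWith v (n ^ 2 + 1) 0 2) :
    Design (G.adjMatrix ℤ + 1) (n : ℤ) := by
  have hA := h.matrix_eq (α := ℤ)
  have hrow : G.adjMatrix ℤ *ᵥ 1 = ((n : ℤ) ^ 2 + 1) • (1 : V → ℤ) := by
    funext i
    have h1 := SimpleGraph.adjMatrix_mulVec_const_apply_of_regular (α := ℤ) (a := 1) h.regular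
      (v := i)
    change (G.adjMatrix ℤ *ᵥ Function.const _ 1) i = _
    rw [h1]
    simp
  have hJ : Gᶜ.adjMatrix ℤ = vecMulVec 1 1 - 1 - G.adjMatrix ℤ := by
    ext i j
    simp only [Matrix.sub_apply, vecMulVec_apply, Pi.one_apply, mul_one,
      SimpleGraph.adjMatrix_apply, SimpleGraph.compl_adj, Matrix.one_apply]
    by_cases hij : i = j
    · subst hij
      simp
    · by_cases hadj : G.Adj i j <;> simp [hij, hadj]
  refine ⟨?_, fun i => ?_, ?_, ?_⟩
  · rw [Matrix.IsSymm, transpose_add, transpose_one, SimpleGraph.transpose_adjMatrix]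
  · rw [Matrix.add_apply, Matrix.one_apply_eq, SimpleGraph.adjMatrix_apply]
    simp
  · rw [pow_two, hJ] at hA
    rw [Matrix.add_mul, Matrix.mul_add, Matrix.mul_one, Matrix.one_mul, hA]
    ext i j
    simp only [Matrix.add_apply, Matrix.sub_apply, Matrix.smul_apply]
    simp only [nsmul_eq_mul, smul_eq_mul]
    push_cast
    ring
  · rw [Matrix.add_mulVec, Matrix.one_mulVec, hrow]
    funext i
    simp only [Pi.add_apply, Pi.smul_apply, Pi.one_apply, smul_eq_mul]
    ring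

end Pool.Agent.MP_e446a9_co_srg
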