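import Pool.Agent.MP_e446a9_co_srg.Core

/-!
The determinant of the lattice `ker (M - n)`.
-/

set_option autoImplicit false
set_option linter.unusedSectionVars false

namespace Pool.Agent.MP_e446a9_co_srg

open Matrix

section

variable {V : Type*} [Fintype V] [DecidableEq V] {M : Matrix V V ℤ} {n b : ℤ} {f : ℕ}
  {X : Matrix V (Fin f) ℤ} {Z : Matrix (Fin f) V ℤ}

/-- The columns of `X` are a basis of the lattice `ker (M - n)`, and `Z` gives coordinates. -/
structure KerBasis (M : Matrix V V ℤ) (n b : ℤ) (f : ℕ) (X : Matrix V (Fin f) ℤ)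
    (Z : Matrix (Fin f) V ℤ) : Prop where
  ker : (M - n • (1 : Matrix V V ℤ)) * X = 0
  inv : Z * X = 1
  coord : X * Z * proj M n b = proj M n b

lemma Design.exists_kerBasis (h : Design M n) (hb : 2 * b = n ^ 2 - n + 2) :
    ∃ (f : ℕ) (X : Matrix V (Fin f) ℤ) (Z : Matrix (Fin f) V ℤ), KerBasis M n b f X Z := by
  obtain ⟨f, X, Z, h1, h2, h3⟩ := exists_kernel_basis (M - n • (1 : Matrix V V ℤ))
  exact ⟨f, X, Z, h1, h2, h3 _ (h.mul_proj hb)⟩

/-- the form dual to the Gram matrix `Xᵀ * X` -/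
def dualForm (M : Matrix V V ℤ) (n b : ℤ) (Z : Matrix (Fin f) V ℤ) : Matrix (Fin f) (Fin f) ℤ :=
  Z * proj M n b * Zᵀ

lemma dualForm_symm (h : Design M n) : (dualForm M n b Z).IsSymm := by
  rw [dualForm, Matrix.IsSymm, transpose_mul, transpose_mul, transpose_transpose,
    h.proj_symm, Matrix.mul_assoc]

lemma KerBasis.coord' (k : KerBasis M n b f X Z) (h : Design M n) :
    proj M n b * Zᵀ * Xᵀ = proj M n b := by
  have h1 := congrArg Matrix.transpose k.coord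
  rw [transpose_mul, transpose_mul, h.proj_symm, ← Matrix.mul_assoc] at h1
  exact h1

lemma KerBasis.proj_eq (k : KerBasis M n b f X Z) (h : Design M n) :
    X * dualForm M n b Z * Xᵀ = proj M n b := by
  rw [dualForm, ← Matrix.mul_assoc, ← Matrix.mul_assoc, k.coord, k.coord' h]

lemma KerBasis.dual_mul (k : KerBasis M n b f X Z) (h : Design M n) :
    dualForm M n b Z * (Xᵀ * X) = (2 * (n * b)) • 1 := by
  have h1 : dualForm M n b Z * (Xᵀ * X) = Z * (proj M n b * Zᵀ * Xᵀ) * X := by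
    rw [dualForm]
    simp only [Matrix.mul_assoc]
  rw [h1, k.coord' h, Matrix.mul_assoc, h.proj_mul k.ker, Matrix.mul_smul, k.inv]

lemma gram_symm : (Xᵀ * X).IsSymm := by
  rw [Matrix.IsSymm, transpose_mul, transpose_transpose]

lemma KerBasis.mul_dual (k : KerBasis M n b f X Z) (h : Design M n) :
    (Xᵀ * X) * dualForm M n b Z = (2 * (n * b)) • 1 := by
  have h1 := congrArg Matrix.transpose (k.dual_mul h)
  rw [transpose_mul, gram_symm, dualForm_symm h, transpose_smul, transpose_one] at h1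
  exact h1

lemma KerBasis.gram_even (k : KerBasis M n b f X Z) (h : Design M n) :
    EvenSymm (Xᵀ * X) := by
  refine ⟨gram_symm, fun j => ?_⟩
  have h1 := congrFun (h.sum_zero k.ker) j
  rw [Matrix.vecMul, dotProduct] at h1
  simp only [Pi.one_apply, one_mul, Pi.zero_apply] at h1
  have h2 : (Xᵀ * X) j j = ∑ i, X i j * (X i j - 1) := by
    rw [Matrix.mul_apply]
    simp only [transpose_apply, mul_sub, mul_one, Finset.sum_sub_distrib, h1, sub_zero]
  rw [h2]
  refine Finset.sum_induction _ Even (fun _ _ => Even.add) ⟨0, rfl⟩ fun i _ => ?_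
  exact Int.even_mul_pred_self _

lemma KerBasis.dualForm_eq (Z : Matrix (Fin f) V ℤ) :
    dualForm M n b Z = b • (Z * (M + n • (1 : Matrix V V ℤ)) * Zᵀ) -
      vecMulVec (Z *ᵥ 1) (Z *ᵥ 1) := by
  rw [dualForm, proj, Matrix.mul_sub, Matrix.sub_mul, Matrix.mul_smul, Matrix.smul_mul,
    mul_vecMulVec, vecMulVec_mul, Matrix.vecMul_transpose]

/-- the determinant divides `b (2 n) ^ f` -/
lemma KerBasis.det_dvd (k : KerBasis M n b f X Z) (h : Design M n) (hb0 : b ≠ 0) :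
    (Xᵀ * X).det ∣ b * (2 * n) ^ f := by
  have h1 := congrArg Matrix.det (k.mul_dual h)
  rw [det_mul, det_smul, det_one, mul_one, Fintype.card_fin] at h1
  have h2 := det_rank_one b (Z * (M + n • (1 : Matrix V V ℤ)) * Zᵀ) (Z *ᵥ 1) (Z *ᵥ 1)
  rw [← KerBasis.dualForm_eq, Fintype.card_fin] at h2
  obtain ⟨q, hq⟩ : ∃ q, q = (fromBlocks (b • (1 : Matrix Unit Unit ℤ))
    (replicateRow Unit (Z *ᵥ 1)) (replicateCol Unit (Z *ᵥ 1))
      (Z * (M + n • (1 : Matrix V V ℤ)) * Zᵀ)).det := ⟨_, rfl⟩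
  rw [← hq] at h2
  refine ⟨q, ?_⟩
  have h3 : b ^ f * ((Xᵀ * X).det * q) = b ^ f * (b * (2 * n) ^ f) := by
    calc b ^ f * ((Xᵀ * X).det * q) = (Xᵀ * X).det * (b ^ f * q) := by ring
      _ = (Xᵀ * X).det * (b * (dualForm M n b Z).det) := by rw [h2]
      _ = b * ((Xᵀ * X).det * (dualForm M n b Z).det) := by ring
      _ = b * (2 * (n * b)) ^ f := by rw [h1]
      _ = b ^ f * (b * (2 * n) ^ f) := by
          rw [← mul_assoc, mul_pow (2 * n) b]
          ring
  exact (mul_left_cancel₀ (pow_ne_zero _ hb0) h3).symm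

/-- `b` divides the determinant -/
lemma KerBasis.dvd_det [Nonempty V] (k : KerBasis M n b f X Z) (h : Design M n) :
    b ∣ (Xᵀ * X).det := by
  obtain ⟨a⟩ := (inferInstance : Nonempty V)
  obtain ⟨z, hz⟩ : ∃ z, z = Z *ᵥ (1 : V → ℤ) := ⟨_, rfl⟩
  obtain ⟨C, hC⟩ : ∃ C, C = Z * (M + n • (1 : Matrix V V ℤ)) * Zᵀ := ⟨_, rfl⟩
  have hG : dualForm M n b Z = b • C - vecMulVec z z := by
    rw [hz, hC]
    exact KerBasis.dualForm_eq Z
  -- the entries of `G z zᵀ` are divisible by `b`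
  have h1 : ∀ i j, b ∣ ((Xᵀ * X) *ᵥ z) i * z j := by
    intro i j
    have h2 := k.mul_dual h
    rw [hG, Matrix.mul_sub, Matrix.mul_smul, mul_vecMulVec] at h2
    have h3 := congrFun (congrFun h2 i) j
    simp only [Matrix.sub_apply, Matrix.smul_apply, smul_eq_mul, vecMulVec_apply] at h3
    refine ⟨((Xᵀ * X) * C) i j - 2 * n * (1 : Matrix (Fin f) (Fin f) ℤ) i j, ?_⟩
    linear_combination (-1 : ℤ) * h3
  -- `(X z)_a ^ 2 = 1` modulo `b`
  have h2 : b ∣ (X *ᵥ z) a * (X *ᵥ z) a - 1 := by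
    have h3 := k.proj_eq h
    rw [hG, Matrix.mul_sub, Matrix.sub_mul, Matrix.mul_smul, Matrix.smul_mul, mul_vecMulVec,
      vecMulVec_mul, Matrix.vecMul_transpose, proj] at h3
    have h4 := congrFun (congrFun h3 a) a
    simp only [Matrix.sub_apply, Matrix.smul_apply, smul_eq_mul, vecMulVec_apply,
      Pi.one_apply, mul_one] at h4
    refine ⟨(X * C * Xᵀ) a a - (M + n • (1 : Matrix V V ℤ)) a a, ?_⟩
    linear_combination (-1 : ℤ) * h4
  have h3 : ∀ i, b ∣ ((Xᵀ * X) *ᵥ z) i := by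
    intro i
    have h4 : b ∣ ((Xᵀ * X) *ᵥ z) i * (X *ᵥ z) a := by
      have h5 : (X *ᵥ z) a = ∑ j, X a j * z j := rfl
      rw [h5, Finset.mul_sum]
      refine Finset.dvd_sum fun j _ => ?_
      obtain ⟨c, hc⟩ := h1 i j
      exact ⟨X a j * c, by linear_combination X a j * hc⟩
    obtain ⟨c, hc⟩ := h4
    obtain ⟨d, hd⟩ := h2
    exact ⟨c * (X *ᵥ z) a - ((Xᵀ * X) *ᵥ z) i * d, by
      linear_combination (X *ᵥ z) a * hc - ((Xᵀ * X) *ᵥ z) i * hd⟩
  have h4 : ∀ j, b ∣ (Xᵀ * X).det * z j := by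
    intro j
    have h5 : (adjugate (Xᵀ * X)) *ᵥ ((Xᵀ * X) *ᵥ z) = (Xᵀ * X).det • z := by
      rw [Matrix.mulVec_mulVec, adjugate_mul, Matrix.smul_mulVec, Matrix.one_mulVec]
    have h6 := congrFun h5 j
    rw [Pi.smul_apply, smul_eq_mul] at h6
    rw [← h6, Matrix.mulVec, dotProduct]
    exact Finset.dvd_sum fun i _ => (h3 i).mul_left _
  have h5 : b ∣ (Xᵀ * X).det * (X *ᵥ z) a := by
    have h5 : (X *ᵥ z) a = ∑ j, X a j * z j := rfl
    rw [h5, Finset.mul_sum]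
    refine Finset.dvd_sum fun j _ => ?_
    obtain ⟨c, hc⟩ := h4 j
    exact ⟨X a j * c, by linear_combination X a j * hc⟩
  obtain ⟨c, hc⟩ := h5
  obtain ⟨d, hd⟩ := h2
  exact ⟨c * (X *ᵥ z) a - (Xᵀ * X).det * d, by
    linear_combination (X *ᵥ z) a * hc - (Xᵀ * X).det * hd⟩

end

end Pool.Agent.MP_e446a9_co_srg
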