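import Mathlib

/-!
The kernel of an integer matrix is a direct summand: bases and coordinates as integer matrices.
-/

set_option autoImplicit false

namespace Pool.Agent.MP_e446a9_co_srg

open Matrix

/-- The kernel of the integer matrix `N` has a basis (the columns of `X`), and there are integral
coordinates (given by `Z`). -/
lemma exists_kernel_basis {V : Type*} [Fintype V] [DecidableEq V] (N : Matrix V V ℤ) :
    ∃ (f : ℕ) (X : Matrix V (Fin f) ℤ) (Z : Matrix (Fin f) V ℤ), N * X = 0 ∧ Z * X = 1 ∧
      ∀ W : Matrix V V ℤ, N * W = 0 → X * Z * W = W := by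
  obtain ⟨φ, hφ⟩ : ∃ φ : (V → ℤ) →ₗ[ℤ] (V → ℤ), ∀ x, φ x = N *ᵥ x :=
    ⟨N.mulVecLin, fun x => Matrix.mulVecLin_apply _ _⟩
  obtain ⟨s, hs⟩ := Module.projective_lifting_property φ.rangeRestrict
    (LinearMap.id : LinearMap.range φ →ₗ[ℤ] LinearMap.range φ) φ.surjective_rangeRestrict
  have hs' : ∀ y : LinearMap.range φ, φ (s y) = y := by
    intro y
    have h1 := LinearMap.congr_fun hs y
    rw [LinearMap.comp_apply, LinearMap.id_apply] at h1
    have h2 := congrArg Subtype.val h1
    simpa using h2
  let b := Module.finBasis ℤ (LinearMap.ker φ)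
  -- the projection
  let π : (V → ℤ) →ₗ[ℤ] LinearMap.ker φ :=
    LinearMap.codRestrict (LinearMap.ker φ) (LinearMap.id - s ∘ₗ φ.rangeRestrict) (by
      intro x
      rw [LinearMap.mem_ker, LinearMap.sub_apply, LinearMap.id_apply, LinearMap.comp_apply,
        map_sub, hs', sub_eq_zero]
      rfl)
  have hπ : ∀ x (hx : x ∈ LinearMap.ker φ), π x = ⟨x, hx⟩ := by
    intro x hx
    apply Subtype.ext
    change x - s (φ.rangeRestrict x) = x
    have : φ.rangeRestrict x = 0 := by
      apply Subtype.ext
      exact hx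
    rw [this, map_zero, sub_zero]
  refine ⟨Module.finrank ℤ (LinearMap.ker φ), Matrix.of fun i j => (b j : V → ℤ) i,
    Matrix.of fun j i => b.repr (π (Pi.single i 1)) j, ?_, ?_, ?_⟩
  · ext i j
    have h1 : φ (b j) = 0 := (b j).2
    exact congrFun ((hφ _).symm.trans h1) i
  · have h2 : ∀ x : V → ℤ, ∀ j, b.repr (π x) j = ∑ i, b.repr (π (Pi.single i 1)) j * x i := by
      intro x j
      conv_lhs => rw [← Finset.univ_sum_single x]
      rw [map_sum, map_sum, Finset.sum_apply']
      refine Finset.sum_congr rfl fun i _ => ?_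
      have : Pi.single i (x i) = x i • (Pi.single i 1 : V → ℤ) := by
        rw [← Pi.single_smul]
        simp
      rw [this, map_smul, map_smul, Finsupp.smul_apply, smul_eq_mul, mul_comm]
    ext j j'
    rw [Matrix.mul_apply]
    change ∑ i, b.repr (π (Pi.single i 1)) j * (b j' : V → ℤ) i = _
    rw [← h2, hπ _ (b j').2, Subtype.coe_eta, Module.Basis.repr_self, Matrix.one_apply,
      Finsupp.single_apply]
    simp only [eq_comm]
  · intro W hW
    have h2 : ∀ x : V → ℤ, ∀ j, b.repr (π x) j = ∑ i, b.repr (π (Pi.single i 1)) j * x i := by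
      intro x j
      conv_lhs => rw [← Finset.univ_sum_single x]
      rw [map_sum, map_sum, Finset.sum_apply']
      refine Finset.sum_congr rfl fun i _ => ?_
      have : Pi.single i (x i) = x i • (Pi.single i 1 : V → ℤ) := by
        rw [← Pi.single_smul]
        simp
      rw [this, map_smul, map_smul, Finsupp.smul_apply, smul_eq_mul, mul_comm]
    ext i k
    obtain ⟨x, hx⟩ : ∃ x : V → ℤ, x = fun i => W i k := ⟨_, rfl⟩
    have hxk : x ∈ LinearMap.ker φ := by
      rw [LinearMap.mem_ker, hφ]
      funext i'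
      have := congrFun (congrFun hW i') k
      rw [Matrix.mul_apply] at this
      rw [hx]
      exact this
    rw [Matrix.mul_assoc, Matrix.mul_apply]
    have h3 : ∀ j, (Matrix.of (fun j i => b.repr (π (Pi.single i 1)) j) * W) j k =
        b.repr (π x) j := by
      intro j
      rw [h2, Matrix.mul_apply, hx]
      rfl
    simp only [h3, Matrix.of_apply]
    rw [hπ x hxk]
    have h4 := congrArg (fun y : LinearMap.ker φ => (y : V → ℤ) i) (b.sum_repr ⟨x, hxk⟩)
    simp only [Submodule.coe_sum, Submodule.coe_smul, Finset.sum_apply, Pi.smul_apply,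
      smul_eq_mul] at h4
    have h5 : W i k = x i := by rw [hx]
    rw [h5, ← h4]
    refine Finset.sum_congr rfl fun j _ => ?_
    rw [mul_comm]

end Pool.Agent.MP_e446a9_co_srg
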