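import Pool.Agent.MP_e446a9_co_srg.Elim
import Pool.Agent.MP_e446a9_co_srg.Diag
import Pool.Agent.MP_e446a9_co_srg.Split

/-!
Rank one perturbations and congruences of even symmetric matrices.
-/

set_option autoImplicit false

namespace Pool.Agent.MP_e446a9_co_srg

open Matrix

section

variable {ι : Type} [Fintype ι] [DecidableEq ι]

lemma det_rank_one (b : ℤ) (C : Matrix ι ι ℤ) (z w : ι → ℤ) :
    b * (b • C - vecMulVec z w).det = b ^ Fintype.card ι *
      (fromBlocks (b • (1 : Matrix Unit Unit ℤ)) (replicateRow Unit w) (replicateCol Unit z)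
        C).det := by
  have h1 : fromBlocks (b • (1 : Matrix Unit Unit ℤ)) 0 0 (1 : Matrix ι ι ℤ) *
      fromBlocks (1 : Matrix Unit Unit ℤ) (replicateRow Unit w) (replicateCol Unit z) (b • C) =
      fromBlocks (b • (1 : Matrix Unit Unit ℤ)) (replicateRow Unit w) (replicateCol Unit z) C *
        fromBlocks (1 : Matrix Unit Unit ℤ) 0 0 (b • (1 : Matrix ι ι ℤ)) := by
    rw [fromBlocks_multiply, fromBlocks_multiply]
    simp only [Matrix.smul_mul, Matrix.mul_smul, Matrix.one_mul, Matrix.mul_one, Matrix.zero_mul,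
      Matrix.mul_zero, smul_zero, add_zero, zero_add]
  have h2 := congrArg Matrix.det h1
  rw [det_mul, det_mul, det_fromBlocks_zero₂₁, det_fromBlocks_zero₂₁, det_fromBlocks_one₁₁,
    det_smul, det_smul, det_one, det_one, Fintype.card_unit, pow_one, mul_one, mul_one,
    mul_one, ← vecMulVec_eq] at h2
  rw [h2]
  ring

lemma det_rank_one' (b : ℤ) (z w : ι → ℤ) :
    b * (b • (1 : Matrix ι ι ℤ) + vecMulVec z w).det = b ^ Fintype.card ι * (b + w ⬝ᵥ z) := by
  have h1 := det_rank_one b (1 : Matrix ι ι ℤ) z (-w)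
  rw [det_fromBlocks_one₂₂] at h1
  have h2 : b • (1 : Matrix ι ι ℤ) - vecMulVec z (-w) = b • 1 + vecMulVec z w := by
    rw [vecMulVec_neg, sub_neg_eq_add]
  rw [h2] at h1
  rw [h1]
  congr 1
  rw [det_unique, Matrix.sub_apply, Matrix.smul_apply, Matrix.one_apply_eq, Matrix.mul_apply]
  simp [dotProduct]

end

lemma EvenSymm.conj {V : Type*} {ι : Type} [Fintype V] [DecidableEq V] {F : Matrix V V ℤ}
    (h : EvenSymm F) (Z : Matrix ι V ℤ) : EvenSymm (Z * F * Zᵀ) := by
  refine ⟨?_, fun j => ?_⟩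
  · rw [Matrix.IsSymm, transpose_mul, transpose_mul, transpose_transpose, h.1, Matrix.mul_assoc]
  · have key : (((Z * F * Zᵀ) j j : ℤ) : ZMod 2) = 0 → Even ((Z * F * Zᵀ) j j) := by
      intro h0
      rw [ZMod.intCast_zmod_eq_zero_iff_dvd] at h0
      exact even_iff_two_dvd.mpr h0
    apply key
    have h1 : (Z * F * Zᵀ) j j = ∑ a, ∑ c, Z j a * F a c * Z j c := by
      rw [Matrix.mul_apply, Finset.sum_comm]
      refine Finset.sum_congr rfl fun c _ => ?_
      rw [Matrix.mul_apply, Finset.sum_mul, transpose_apply]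
    rw [h1]
    push_cast
    rw [sum_symm_two (fun a c => (Z j a : ZMod 2) * (F a c : ZMod 2) * (Z j c : ZMod 2))
      (fun a c => by
        rw [h.1.apply c a]
        ring)]
    refine Finset.sum_eq_zero fun a _ => ?_
    have h2 : ((F a a : ℤ) : ZMod 2) = 0 := by
      rw [ZMod.intCast_zmod_eq_zero_iff_dvd]
      exact even_iff_two_dvd.mp (h.2 a)
    rw [h2]
    ring

end Pool.Agent.MP_e446a9_co_srg
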