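import Pool.Agent.MP_e446a9_co_srg.Lattice

/-!
The odd part of the determinant of the lattice `ker (M - n)` modulo 4.
-/

set_option autoImplicit false
set_option linter.unusedSectionVars false

namespace Pool.Agent.MP_e446a9_co_srg

open Matrix

section

variable {V : Type*} [Fintype V] [DecidableEq V] {M : Matrix V V ℤ} {n b : ℤ} {f : ℕ}
  {X : Matrix V (Fin f) ℤ} {Z : Matrix (Fin f) V ℤ}

/-- the rank of the lattice -/
lemma KerBasis.rank (k : KerBasis M n b f X Z) (h : Design M n) :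
    (Fintype.card V : ℤ) * (b * (1 + n) - 1) = 2 * (n * b) * f := by
  have h1 : (proj M n b).trace = 2 * (n * b) * f := by
    rw [← k.proj_eq h, Matrix.mul_assoc, trace_mul_comm, Matrix.mul_assoc, k.dual_mul h,
      trace_smul, trace_one, Fintype.card_fin, smul_eq_mul]
  rw [← h1, Matrix.trace]
  have h2 : ∀ i, Matrix.diag (proj M n b) i = b * (1 + n) - 1 := by
    intro i
    rw [Matrix.diag_apply, proj, Matrix.sub_apply, Matrix.smul_apply, Matrix.add_apply,
      Matrix.smul_apply, h.diag, Matrix.one_apply_eq, vecMulVec_apply]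
    simp
  simp only [h2, Finset.sum_const, Finset.card_univ, nsmul_eq_mul]

lemma exists_half {a : Fin f → ℤ} (h : ∀ j, Even (a j)) : ∃ c : Fin f → ℤ, a = (2 : ℤ) • c := by
  choose c hc using h
  exact ⟨c, by
    funext j
    rw [hc j, Pi.smul_apply, smul_eq_mul]
    ring⟩

/-- The odd part of the determinant of the lattice, in general. -/
lemma KerBasis.oddPart (k : KerBasis M n b f X Z) (h : Design M n) (hn : n % 4 = 1)
    (hb : b % 2 = 1) (hv : (Fintype.card V : ℤ) % 4 = 0) :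
    ∃ m : ℕ, f = 2 * m ∧ ∀ ε, OddPart (Xᵀ * X).det ε →
      (4 : ℤ) ∣ ε * (1 + (Fintype.card V : ℤ) / 2) - (-1) ^ m := by
  -- a vector in the lattice with odd entries
  have hdiag : ∀ i, proj M n b i i = b * (1 + n) - 1 := by
    intro i
    rw [proj, Matrix.sub_apply, Matrix.smul_apply, Matrix.add_apply,
      Matrix.smul_apply, h.diag, Matrix.one_apply_eq, vecMulVec_apply]
    simp
  have hodd : ∀ i, Odd (proj M n b i i) := by
    intro i
    rw [hdiag]
    have : Even (b * (1 + n)) := by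
      refine Even.mul_left ?_ b
      rw [Int.even_iff]
      omega
    exact this.sub_odd odd_one
  obtain ⟨u, hu⟩ := exists_odd_image h.proj_symm hodd
  obtain ⟨w, hw⟩ : ∃ w, w = proj M n b *ᵥ u := ⟨_, rfl⟩
  rw [← hw] at hu
  obtain ⟨y, hy⟩ : ∃ y, y = Z *ᵥ w := ⟨_, rfl⟩
  have hXy : X *ᵥ y = w := by
    rw [hy, hw, Matrix.mulVec_mulVec, Matrix.mulVec_mulVec, k.coord]
  -- `w ⬝ w = v` modulo 8
  have hww : (w ⬝ᵥ w - Fintype.card V) % 8 = 0 := by
    have h1 : w ⬝ᵥ w - Fintype.card V = ∑ i, (w i ^ 2 - 1) := by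
      rw [Finset.sum_sub_distrib, dotProduct]
      simp [pow_two]
    rw [h1]
    apply Int.emod_eq_zero_of_dvd
    refine Finset.dvd_sum fun i _ => ?_
    have := odd_sq_mod (hu i)
    omega
  obtain ⟨q, hq⟩ : ∃ q, w ⬝ᵥ w = 2 * q := ⟨w ⬝ᵥ w / 2, by omega⟩
  obtain ⟨G, hG⟩ : ∃ G, G = Xᵀ * X := ⟨_, rfl⟩
  obtain ⟨G', hG'⟩ : ∃ G', G' = dualForm M n b Z := ⟨_, rfl⟩
  obtain ⟨s, hs⟩ : ∃ s, s = n * b := ⟨_, rfl⟩
  have hGG : G * G' = (2 * s) • 1 := by rw [hG, hG', hs]; exact k.mul_dual h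
  have hGs : Gᵀ = G := by rw [hG]; exact gram_symm
  have hGs' : G'ᵀ = G' := by rw [hG']; exact dualForm_symm h
  have hGe : EvenSymm G := by rw [hG]; exact k.gram_even h
  -- the vector `G y`
  have hGy : G *ᵥ y = w ᵥ* X := by
    rw [hG, ← Matrix.mulVec_mulVec, hXy, Matrix.mulVec_transpose]
  have hev : ∀ j, Even ((G *ᵥ y) j) := by
    intro j
    rw [hGy]
    have h1 := congrFun (h.sum_zero k.ker) j
    rw [Matrix.vecMul, dotProduct] at h1
    simp only [Pi.one_apply, one_mul, Pi.zero_apply] at h1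
    have h2 : (w ᵥ* X) j = ∑ i, (w i - 1) * X i j := by
      rw [Matrix.vecMul, dotProduct]
      simp only [sub_mul, one_mul, Finset.sum_sub_distrib, h1, sub_zero]
    rw [h2]
    refine Finset.sum_induction _ Even (fun _ _ => Even.add) ⟨0, rfl⟩ fun i _ => ?_
    exact ((hu i).sub_odd odd_one).mul_right _
  obtain ⟨g, hg⟩ := exists_half hev
  have hgy : g ⬝ᵥ y = q := by
    have h1 : (G *ᵥ y) ⬝ᵥ y = w ⬝ᵥ w := by
      rw [hGy, ← Matrix.dotProduct_mulVec, hXy]
    rw [hg, smul_dotProduct, hq, smul_eq_mul] at h1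
    linarith
  have hgG : g ᵥ* G' = s • y := by
    have h1 : (G *ᵥ y) ᵥ* G' = (2 * s) • y := by
      have h2 : G *ᵥ y = y ᵥ* G := by
        rw [← Matrix.vecMul_transpose, hGs]
      rw [h2, Matrix.vecMul_vecMul, hGG, Matrix.vecMul_smul, Matrix.vecMul_one]
    rw [hg, Matrix.smul_vecMul] at h1
    funext j
    have h2 := congrFun h1 j
    simp only [Pi.smul_apply, smul_eq_mul] at h2 ⊢
    linarith
  -- the pair of even matrices
  obtain ⟨K, hK⟩ : ∃ K, K = (s - q) • G + (2 : ℤ) • vecMulVec g g := ⟨_, rfl⟩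
  obtain ⟨K', hK'⟩ : ∃ K', K' = G' - vecMulVec y y := ⟨_, rfl⟩
  have hKe : EvenSymm K := by
    refine ⟨?_, fun j => ?_⟩
    · rw [hK, Matrix.IsSymm, transpose_add, transpose_smul, transpose_smul, transpose_vecMulVec,
        hGs]
    · rw [hK, Matrix.add_apply, Matrix.smul_apply, Matrix.smul_apply, smul_eq_mul, smul_eq_mul]
      exact ((hGe.2 j).mul_left _).add (even_two_mul _)
  have hKe' : EvenSymm K' := by
    have h1 : K' = Z * (proj M n b - vecMulVec w w) * Zᵀ := by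
      rw [hK', hG', dualForm, Matrix.mul_sub, Matrix.sub_mul, mul_vecMulVec, vecMulVec_mul,
        Matrix.vecMul_transpose, ← hy]
    rw [h1]
    apply EvenSymm.conj
    refine ⟨?_, fun i => ?_⟩
    · rw [Matrix.IsSymm, transpose_sub, transpose_vecMulVec, h.proj_symm]
    · rw [Matrix.sub_apply, vecMulVec_apply]
      exact (hodd i).sub_odd ((hu i).mul (hu i))
  have hKK : K * K' = (2 * (s * (s - q))) • 1 := by
    have h1 : G * vecMulVec y y = (2 : ℤ) • vecMulVec g y := by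
      rw [mul_vecMulVec, hg, smul_vecMulVec]
    have h2 : vecMulVec g g * G' = s • vecMulVec g y := by
      rw [vecMulVec_mul, hgG, vecMulVec_smul]
    have h3 : vecMulVec g g * vecMulVec y y = q • vecMulVec g y := by
      rw [vecMulVec_mul_vecMulVec, hgy, vecMulVec_smul]
    rw [hK, hK', Matrix.add_mul, Matrix.mul_sub, Matrix.mul_sub, Matrix.smul_mul, Matrix.smul_mul,
      Matrix.smul_mul, Matrix.smul_mul, hGG, h1, h2, h3]
    ext i j
    simp only [Matrix.sub_apply, Matrix.smul_apply, Matrix.add_apply, smul_eq_mul]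
    ring
  have hdet : (s - q) * K.det = G.det * ((s - q) ^ f * s) := by
    have h1 : K = G * ((s - q) • (1 : Matrix (Fin f) (Fin f) ℤ) + vecMulVec y g) := by
      rw [hK, Matrix.mul_add, Matrix.mul_smul, Matrix.mul_one, mul_vecMulVec, hg, smul_vecMulVec]
    have h2 := det_rank_one' (s - q) y g
    rw [hgy, sub_add_cancel, Fintype.card_fin] at h2
    rw [h1, det_mul, ← h2]
    ring
  have hs2 : s % 2 = 1 := by
    rw [hs, Int.mul_emod, hb, show n % 2 = 1 by omega]
    rfl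
  have hq2 : q % 2 = 0 := by omega
  have hx : (2 * (s * (s - q))) % 4 = 2 := by
    have h1 : (s * (s - q)) % 2 = 1 := by
      rw [Int.mul_emod, hs2, show (s - q) % 2 = 1 by omega]
      rfl
    omega
  obtain ⟨m, hm, hε⟩ := oddPart_det f (Fin f) K K' _ (Fintype.card_fin f) hKe hKe' hx hKK
  refine ⟨m, hm, fun ε hε' => ?_⟩
  -- compare the odd parts
  have hsq : Odd (s - q) := by
    rw [Int.odd_iff]
    omega
  have hso : Odd s := by
    rw [Int.odd_iff]
    exact hs2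
  have hK0 : K.det ≠ 0 := by
    intro h0
    have h1 : K.det * K'.det = (2 * (s * (s - q))) ^ f := by
      rw [← det_mul, hKK, det_smul, det_one, mul_one, Fintype.card_fin]
    rw [h0, zero_mul] at h1
    refine (pow_ne_zero f ?_) h1.symm
    intro h2
    rw [h2] at hx
    norm_num at hx
  obtain ⟨ε₂, hε₂⟩ := exists_oddPart hK0
  have h1 := (oddPart_self hsq).mul hε₂
  rw [← hG] at hε'
  rw [hdet] at h1
  have h2 := h1.unique (hε'.mul (oddPart_self (hsq.pow.mul hso)))
  have h3 := hε ε₂ hε₂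
  -- modulo 4
  have h4 : (s - q) ^ f % 4 = 1 := by
    rw [hm]
    exact odd_pow_mod hsq m
  have h5 : q % 4 = (Fintype.card V : ℤ) / 2 % 4 := by omega
  obtain ⟨v, hv'⟩ : ∃ v : ℤ, v = (Fintype.card V : ℤ) := ⟨_, rfl⟩
  rw [← hv'] at h5 hv ⊢
  have h6 : ((s - q) * ε₂) % 4 = (ε * s) % 4 := by
    rw [h2, Int.mul_emod, Int.mul_emod ((s - q) ^ f), h4, one_mul, Int.emod_emod_of_dvd _
      (dvd_refl 4), ← Int.mul_emod]
  have h7 : ε % 2 = 1 := Int.odd_iff.mp hε'.1
  have h8 : ε₂ % 2 = 1 := Int.odd_iff.mp hε₂.1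
  have a1 : ε % 4 = 1 ∨ ε % 4 = 3 := by omega
  have a2 : ε₂ % 4 = 1 ∨ ε₂ % 4 = 3 := by omega
  have a3 : s % 4 = 1 ∨ s % 4 = 3 := by omega
  have a4 : q % 4 = 0 ∨ q % 4 = 2 := by omega
  have a5 : (1 + v / 2) % 4 = (1 + q) % 4 := by omega
  have h9 : (4 : ℤ) ∣ ε * (1 + v / 2) - ε₂ := by
    apply Int.dvd_of_emod_eq_zero
    rw [Int.sub_emod, Int.mul_emod, a5]
    rw [Int.mul_emod, Int.sub_emod] at h6
    rw [Int.mul_emod ε s] at h6
    rw [Int.add_emod]
    rcases a1 with a1 | a1 <;> rcases a2 with a2 | a2 <;> rcases a3 with a3 | a3 <;>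
      rcases a4 with a4 | a4 <;> rw [a1, a2, a3, a4] at h6 <;> rw [a1, a2, a4] <;>
      first | rfl | (exfalso; revert h6; decide)
  have h10 := dvd_add h9 h3
  have h11 : ε * (1 + v / 2) - ε₂ + (ε₂ - (-1) ^ m) = ε * (1 + v / 2) - (-1) ^ m := by ring
  rwa [h11] at h10

end

end Pool.Agent.MP_e446a9_co_srg
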